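import Pool.Agent.H74EH.Upper

/-!
The isomorphism relation between elementarily homogeneous partial orders on `ℕ` has exactly the
complexity of equality of countable sets of reals.
-/

namespace Pool.Agent.Results.MP_f1d084_lc.Bireducible

open Pool.Agent.H74EH

/-- Isomorphism of elementarily homogeneous partial orders on `ℕ` is Borel bireducible with
equality of countable sets of reals (coded by sequences of points of the Cantor space). The
reduction in the first part is even continuous. -/
theorem result :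
    (∃ Φ : (ℕ → ℕ → Bool) → PartialOrder ℕ,
      (∀ m n, IsClopen {s | (Φ s).le m n}) ∧
      (∀ s, @ElemHomogeneous ℕ (Φ s)) ∧
      ∀ s t, Nonempty (@OrderIso ℕ ℕ (Φ s).toLE (Φ t).toLE) ↔ Set.range s = Set.range t) ∧
    (∃ Ψ : PartialOrder ℕ → (ℕ → ℕ → Bool),
      @Measurable (PartialOrder ℕ) (ℕ → ℕ → Bool) posetSpace MeasurableSpace.pi Ψ ∧
      ∀ P Q : PartialOrder ℕ, @ElemHomogeneous ℕ P → @ElemHomogeneous ℕ Q →
        (Nonempty (@OrderIso ℕ ℕ P.toLE Q.toLE) ↔ Set.range (Ψ P) = Set.range (Ψ Q))) :=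
  ⟨⟨Ord, Ord_clopen, Ord_hom, Ord_iso⟩, upper⟩

end Pool.Agent.Results.MP_f1d084_lc.Bireducible
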