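import Pool.Agent.H74EH.LocFin

/-!
Two sufficient conditions for elementary homogeneity of countable partial orders.
-/

namespace Pool.Agent.Results.MP_f1d084_lc.InterAlgebraic

open Pool.Agent.H74EH

/-- A countable partial order is elementarily homogeneous if comparable elements are always
interalgebraic; and also if all its intervals are finite and every element has only finitely many
upper covers and lower covers. -/
theorem result :
    (∀ (P : Type) [PartialOrder P] [Countable P],
      (∀ x y : P, x ≤ y → AlgOver x y ∧ AlgOver y x) → ElemHomogeneous P) ∧
    (∀ (P : Type) [PartialOrder P] [Countable P],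
      (∀ x y : P, (Set.Icc x y).Finite) →
      (∀ x : P, {y | x ⋖ y}.Finite ∧ {y | y ⋖ x}.Finite) → ElemHomogeneous P) :=
  ⟨fun _ _ _ h => acl_EH h, fun _ _ _ hI hC => hasse_EH hI hC⟩

end Pool.Agent.Results.MP_f1d084_lc.InterAlgebraic
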